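import Mathlib

/-!
# An admissible set of 14 points

Every horizontal line, every vertical line and every line of slope `1` or `-1` contains no point or
exactly two points of the set of the fourteen points `points` of the plane.
-/

set_option autoImplicit false

namespace Pool.Agent.Results.MP_17a11e_co.FourteenPoints

/-- The line through `a` with direction `u`. -/
def lineThrough (a u : ℝ × ℝ) : Set (ℝ × ℝ) := {p | ∃ t : ℝ, p = a + t • u}

/-- The finite nonempty set `S` is admissible for the directions `D` and for `r`: every line with a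
direction in `D` either misses `S` or contains exactly `r` points of `S`. -/
def Admissible (D : Set (ℝ × ℝ)) (r : ℕ) (S : Set (ℝ × ℝ)) : Prop :=
  S.Finite ∧ S.Nonempty ∧ ∀ u ∈ D, ∀ a : ℝ × ℝ,
    S ∩ lineThrough a u = ∅ ∨ (S ∩ lineThrough a u).ncard = r

/-- The fourteen points. -/
def points : Finset (ℤ × ℤ) :=
  {(0, 1), (0, 2), (1, 0), (1, 1), (2, 2), (2, 5), (3, 4), (3, 6), (4, 0), (4, 6), (6, 3), (6, 5),
    (7, 3), (7, 4)}

/-- the embedding of the integer lattice -/
def emb (q : ℤ × ℤ) : ℝ × ℝ := ((q.1 : ℝ), (q.2 : ℝ))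

theorem emb_injective : Function.Injective emb := by
  rintro ⟨a, b⟩ ⟨c, d⟩ h
  simp only [emb, Prod.mk.injEq, Int.cast_inj] at h
  rw [h.1, h.2]

theorem fibre (φ : ℤ × ℤ → ℤ) (ψ : ℝ × ℝ → ℝ) (hψ : ∀ q, ψ (emb q) = φ q)
    (h2 : ∀ q ∈ points, (points.filter fun x => φ x = φ q).card = 2) (a u : ℝ × ℝ)
    (hl : ∀ p, p ∈ lineThrough a u ↔ ψ p = ψ a) :
    (emb '' (points : Set (ℤ × ℤ))) ∩ lineThrough a u = ∅ ∨
      ((emb '' (points : Set (ℤ × ℤ))) ∩ lineThrough a u).ncard = 2 := by
  by_cases h : ∃ q ∈ points, ψ (emb q) = ψ a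
  · right
    obtain ⟨q, hq, he⟩ := h
    have e : (emb '' (points : Set (ℤ × ℤ))) ∩ lineThrough a u =
        emb '' ((points.filter fun x => φ x = φ q : Finset (ℤ × ℤ)) : Set (ℤ × ℤ)) := by
      ext p
      constructor
      · rintro ⟨⟨x, hx, rfl⟩, hp⟩
        rw [hl, hψ] at hp
        refine ⟨x, ?_, rfl⟩
        rw [Finset.mem_coe, Finset.mem_filter]
        refine ⟨hx, ?_⟩
        rw [hψ] at he
        have : (φ x : ℝ) = φ q := hp.trans he.symm
        exact_mod_cast this
      · rintro ⟨x, hx, rfl⟩
        rw [Finset.mem_coe, Finset.mem_filter] at hx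
        refine ⟨⟨x, hx.1, rfl⟩, ?_⟩
        rw [hl, ← he, hψ, hψ, hx.2]
    rw [e, Set.ncard_image_of_injective _ emb_injective, Set.ncard_coe_finset]
    exact h2 q hq
  · left
    rw [Set.eq_empty_iff_forall_notMem]
    rintro p ⟨⟨x, hx, rfl⟩, hp⟩
    exact h ⟨x, hx, (hl _).mp hp⟩

/-- There is an admissible set of exactly `14` points for the directions of the horizontal line, the
vertical line and the lines of slope `1` and `-1`, and for `r = 2`. -/
theorem result : ∃ S : Set (ℝ × ℝ),
    Admissible {(1, 0), (0, 1), (1, 1), (1, -1)} 2 S ∧ S.ncard = 14 := by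
  refine ⟨emb '' (points : Set (ℤ × ℤ)), ⟨?_, ?_, ?_⟩, ?_⟩
  · exact (Finset.finite_toSet _).image _
  · exact ⟨emb (0, 1), (0, 1), by rw [Finset.mem_coe]; decide, rfl⟩
  · intro u hu a
    simp only [Set.mem_insert_iff, Set.mem_singleton_iff] at hu
    rcases hu with rfl | rfl | rfl | rfl
    · refine fibre (fun q => q.2) (fun p => p.2) (fun q => rfl) (by decide) a _ ?_
      intro p
      constructor
      · rintro ⟨t, rfl⟩
        simp
      · intro h
        refine ⟨p.1 - a.1, ?_⟩
        ext
        · simp
        · simpa using h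
    · refine fibre (fun q => q.1) (fun p => p.1) (fun q => rfl) (by decide) a _ ?_
      intro p
      constructor
      · rintro ⟨t, rfl⟩
        simp
      · intro h
        refine ⟨p.2 - a.2, ?_⟩
        ext
        · simpa using h
        · simp
    · refine fibre (fun q => q.2 - q.1) (fun p => p.2 - p.1) (fun q => by simp [emb]) (by decide)
        a _ ?_
      intro p
      constructor
      · rintro ⟨t, rfl⟩
        simp
      · intro h
        refine ⟨p.1 - a.1, ?_⟩
        ext
        · simp
        · simp only [Prod.snd_add, Prod.smul_snd, smul_eq_mul, mul_one]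
          linarith
    · refine fibre (fun q => q.2 + q.1) (fun p => p.2 + p.1) (fun q => by simp [emb]) (by decide)
        a _ ?_
      intro p
      constructor
      · rintro ⟨t, rfl⟩
        simp
        ring
      · intro h
        refine ⟨p.1 - a.1, ?_⟩
        ext
        · simp
        · simp only [Prod.snd_add, Prod.smul_snd, smul_eq_mul]
          linarith
  · rw [Set.ncard_image_of_injective _ emb_injective, Set.ncard_coe_finset]
    decide

end Pool.Agent.Results.MP_17a11e_co.FourteenPoints
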